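import Mathlib

set_option autoImplicit false

/-! Tools for the rough isometry invariance of discrete Steklov bounds. -/

namespace Pool.Agent.H360Z.Stek

open Finset
open Classical

section One

variable {V : Type} {G : SimpleGraph V}

theorem exists_pred (hG : G.Connected) {p q : V} {j : ℕ} (h : G.dist p q = j + 1) :
    ∃ q', G.Adj q' q ∧ G.dist p q' = j := by
  obtain ⟨w, hw⟩ := hG.exists_walk_length_eq_dist q p
  rw [SimpleGraph.dist_comm, h] at hw
  cases w with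
  | nil => simp at hw
  | cons hadj w' =>
    rename_i q'
    refine ⟨q', hadj.symm, le_antisymm ?_ ?_⟩
    · rw [SimpleGraph.dist_comm]
      have := SimpleGraph.dist_le w'
      simp at hw
      omega
    · have h1 := hG.dist_triangle (u := p) (v := q') (w := q)
      have h2 : G.dist q' q = 1 := SimpleGraph.dist_eq_one_iff_adj.mpr hadj.symm
      omega

theorem dist_adj {x y : V} (h : G.Adj x y) : G.dist x y = 1 :=
  SimpleGraph.dist_eq_one_iff_adj.mpr h

theorem exists_nb {D : ℕ} (hD : ∀ v : V, (G.neighborSet v).encard ≤ (D : ℕ∞)) :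
    ∃ nb : V → Finset V, (∀ x y, y ∈ nb x ↔ G.Adj x y) ∧ ∀ x, (nb x).card ≤ D := by
  have hf : ∀ v, (G.neighborSet v).Finite := fun v => Set.finite_of_encard_le_coe (hD v)
  refine ⟨fun v => (hf v).toFinset, fun x y => by simp, fun x => ?_⟩
  have := hD x
  rw [(hf x).encard_eq_coe_toFinset_card] at this
  exact_mod_cast this

theorem exists_ball (hG : G.Connected) {D : ℕ} {nb : V → Finset V}
    (hnb : ∀ x y, y ∈ nb x ↔ G.Adj x y) (hD : ∀ x, (nb x).card ≤ D) (r : ℕ) (x : V) :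
    ∃ S : Finset V, S.card ≤ (D + 1) ^ r ∧ ∀ z, G.dist x z ≤ r → z ∈ S := by
  induction r with
  | zero =>
    refine ⟨{x}, by simp, fun z hz => ?_⟩
    rw [Nat.le_zero, hG.dist_eq_zero_iff] at hz
    simp [hz]
  | succ r ih =>
    obtain ⟨S, hS1, hS2⟩ := ih
    refine ⟨S ∪ S.biUnion nb, ?_, fun z hz => ?_⟩
    · calc (S ∪ S.biUnion nb).card ≤ S.card + (S.biUnion nb).card := card_union_le _ _
        _ ≤ S.card + S.card * D := by
          gcongr
          exact card_biUnion_le_card_mul _ _ _ (fun a _ => hD a)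
        _ = S.card * (D + 1) := by ring
        _ ≤ (D + 1) ^ r * (D + 1) := by gcongr
        _ = _ := by ring
    · rcases Nat.lt_or_ge r (G.dist x z) with h | h
      · obtain ⟨q, hq1, hq2⟩ := exists_pred hG (j := r) (by omega : G.dist x z = r + 1)
        exact mem_union_right _ (mem_biUnion.mpr ⟨q, hS2 q hq2.le, (hnb _ _).mpr hq1⟩)
      · exact mem_union_left _ (hS2 z h)

theorem card_le_ball (hG : G.Connected) {D : ℕ} {nb : V → Finset V}
    (hnb : ∀ x y, y ∈ nb x ↔ G.Adj x y) (hD : ∀ x, (nb x).card ≤ D) (r : ℕ) (x : V)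
    (S : Finset V) (hS : ∀ z ∈ S, G.dist x z ≤ r) : S.card ≤ (D + 1) ^ r := by
  obtain ⟨T, hT1, hT2⟩ := exists_ball hG hnb hD r x
  exact (card_le_card fun z hz => hT2 z (hS z hz)).trans hT1

/-- local energy -/
noncomputable def en (nb : V → Finset V) (f : V → ℝ) (x : V) : ℝ := ∑ y ∈ nb x, (f x - f y) ^ 2

theorem en_nonneg (nb : V → Finset V) (f : V → ℝ) (x : V) : 0 ≤ en nb f x :=
  sum_nonneg fun _ _ => sq_nonneg _

theorem path_bound (hG : G.Connected) {nb : V → Finset V} (hnb : ∀ x y, y ∈ nb x ↔ G.Adj x y)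
    (f : V → ℝ) {M : ℝ} (p : V) : ∀ (k : ℕ) (q : V), G.dist p q ≤ k →
      (∀ z, G.dist p z < k → en nb f z ≤ M) → |f p - f q| ≤ k * Real.sqrt M := by
  intro k
  induction k with
  | zero =>
    intro q hq _
    rw [Nat.le_zero, hG.dist_eq_zero_iff] at hq
    simp [hq]
  | succ k ih =>
    intro q hq hM
    have h0 := Real.sqrt_nonneg M
    rcases Nat.lt_or_ge k (G.dist p q) with h | h
    · obtain ⟨q', hq1, hq2⟩ := exists_pred hG (j := k) (by omega : G.dist p q = k + 1)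
      have h1 := ih q' hq2.le (fun z hz => hM z (by omega))
      have h2 : (f q' - f q) ^ 2 ≤ M :=
        (single_le_sum (f := fun y => (f q' - f y) ^ 2) (fun _ _ => sq_nonneg _)
          ((hnb _ _).mpr hq1)).trans (hM q' (by omega))
      have h3 : |f q' - f q| ≤ Real.sqrt M := Real.abs_le_sqrt h2
      have h4 := abs_sub_le (f p) (f q') (f q)
      push_cast
      linarith
    · have h1 := ih q h (fun z hz => hM z (by omega))
      push_cast
      linarith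

theorem exit_bound (hG : G.Connected) {Ω B : Finset V}
    (hB : ∀ v : V, v ∈ B ↔ v ∉ Ω ∧ ∃ u ∈ Ω, G.Adj u v) (v : V → ℝ) {l : ℝ} (hl : 0 ≤ l) {y₀ : V}
    (hy₀ : y₀ ∉ Ω) : ∀ (k : ℕ) (y : V), y ∈ Ω ∪ B → G.dist y₀ y ≤ k →
      (∀ y₁ ∈ Ω, G.dist y₀ y₁ ≤ k → ∀ y₂, G.Adj y₁ y₂ → |v y₁ - v y₂| ≤ l) →
      ∃ b ∈ B, G.dist y₀ b ≤ k ∧ |v y - v b| ≤ k * l := by
  intro k
  induction k with
  | zero =>
    intro y hy hk _
    rcases mem_union.mp hy with h | h
    · rw [Nat.le_zero, hG.dist_eq_zero_iff] at hk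
      exact absurd (hk ▸ h) hy₀
    · exact ⟨y, h, hk, by simp⟩
  | succ k ih =>
    intro y hy hk hstep
    rcases mem_union.mp hy with h | h
    · rcases Nat.lt_or_ge k (G.dist y₀ y) with h1 | h1
      · obtain ⟨q', hq1, hq2⟩ := exists_pred hG (j := k) (by omega : G.dist y₀ y = k + 1)
        have hq3 : q' ∈ Ω ∪ B := by
          by_cases h2 : q' ∈ Ω
          · exact mem_union_left _ h2
          · exact mem_union_right _ ((hB _).mpr ⟨h2, y, h, hq1.symm⟩)
        obtain ⟨b, hb1, hb2, hb3⟩ := ih q' hq3 hq2.le (fun y₁ h₁ h₂ => hstep y₁ h₁ (by omega))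
        refine ⟨b, hb1, by omega, ?_⟩
        have h3 := hstep y h hk q' hq1.symm
        have h4 := abs_sub_le (v y) (v q') (v b)
        push_cast
        linarith
      · obtain ⟨b, hb1, hb2, hb3⟩ := ih y hy h1 (fun y₁ h₁ h₂ => hstep y₁ h₁ (by omega))
        refine ⟨b, hb1, by omega, ?_⟩
        push_cast
        linarith
    · exact ⟨y, h, hk, by simp; positivity⟩

theorem exists_indep (A : Finset V) : ∃ B' ⊆ A, (∀ x ∈ B', ∀ y ∈ B', ¬ G.Adj x y) ∧
    ∀ a ∈ A, ∃ x ∈ B', G.dist x a ≤ 1 := by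
  induction A using Finset.induction_on with
  | empty => exact ⟨∅, Subset.refl _, by simp, by simp⟩
  | insert a A _ ih =>
    obtain ⟨B', h1, h2, h3⟩ := ih
    by_cases h : ∃ x ∈ B', G.Adj x a
    · obtain ⟨x, hx1, hx2⟩ := h
      refine ⟨B', h1.trans (subset_insert _ _), h2, fun c hc => ?_⟩
      rcases mem_insert.mp hc with rfl | hc
      · exact ⟨x, hx1, (dist_adj hx2).le⟩
      · exact h3 c hc
    · push Not at h
      refine ⟨insert a B', insert_subset_insert _ h1, ?_, fun c hc => ?_⟩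
      · intro x hx y hy
        rcases mem_insert.mp hx with rfl | hx' <;> rcases mem_insert.mp hy with rfl | hy'
        · exact G.irrefl
        · exact fun e => h y hy' e.symm
        · exact h x hx'
        · exact h2 x hx' y hy'
      · rcases mem_insert.mp hc with rfl | hc
        · exact ⟨c, mem_insert_self _ _, by simp⟩
        · obtain ⟨x, hx1, hx2⟩ := h3 c hc
          exact ⟨x, mem_insert_of_mem hx1, hx2⟩

theorem double_count {ι : Type} (I : Finset ι) (U : Finset V) (r : ι → V → Prop)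
    [∀ i z, Decidable (r i z)] (e : V → ℝ)
    (he : ∀ z, 0 ≤ e z) (K : ℕ) (hK : ∀ z ∈ U, (I.filter fun i => r i z).card ≤ K) :
    ∑ i ∈ I, ∑ z ∈ U.filter (fun z => r i z), e z ≤ K * ∑ z ∈ U, e z := by
  simp only [sum_filter]
  rw [sum_comm, mul_sum]
  refine sum_le_sum fun z hz => ?_
  rw [← sum_filter, sum_const, nsmul_eq_mul]
  exact mul_le_mul_of_nonneg_right (by exact_mod_cast hK z hz) (he z)

/-- the energy of the statement -/
noncomputable def Eg (G : SimpleGraph V) (Ω B : Finset V) (f : V → ℝ) : ℝ :=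
  (∑ x ∈ Ω, ∑ y ∈ Ω, (if G.Adj x y then (f x - f y) ^ 2 else 0)) / 2 +
    (∑ x ∈ Ω, ∑ y ∈ B, (if G.Adj x y then (f x - f y) ^ 2 else 0))

theorem en_split {nb : V → Finset V} (hnb : ∀ x y, y ∈ nb x ↔ G.Adj x y) {Ω B : Finset V}
    (hB : ∀ v : V, v ∈ B ↔ v ∉ Ω ∧ ∃ u ∈ Ω, G.Adj u v) (f : V → ℝ) :
    ∑ x ∈ Ω, en nb f x = (∑ x ∈ Ω, ∑ y ∈ Ω, (if G.Adj x y then (f x - f y) ^ 2 else 0)) +
      (∑ x ∈ Ω, ∑ y ∈ B, (if G.Adj x y then (f x - f y) ^ 2 else 0)) := by
  rw [← sum_add_distrib]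
  refine sum_congr rfl fun x hx => ?_
  have hd : Disjoint Ω B := disjoint_left.mpr fun v h1 h2 => ((hB v).mp h2).1 h1
  rw [← sum_union hd, ← sum_filter, en]
  refine sum_congr ?_ fun _ _ => rfl
  ext y
  rw [hnb, mem_filter, mem_union]
  refine ⟨fun h => ⟨?_, h⟩, fun h => h.2⟩
  by_cases h2 : y ∈ Ω
  · exact Or.inl h2
  · exact Or.inr ((hB y).mpr ⟨h2, x, hx, h⟩)

theorem Eg_le {nb : V → Finset V} (hnb : ∀ x y, y ∈ nb x ↔ G.Adj x y) {Ω B : Finset V}
    (hB : ∀ v : V, v ∈ B ↔ v ∉ Ω ∧ ∃ u ∈ Ω, G.Adj u v) (f : V → ℝ) :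
    Eg G Ω B f ≤ ∑ x ∈ Ω, en nb f x ∧ ∑ x ∈ Ω, en nb f x ≤ 2 * Eg G Ω B f := by
  rw [en_split hnb hB, Eg]
  have h1 : 0 ≤ ∑ x ∈ Ω, ∑ y ∈ Ω, (if G.Adj x y then (f x - f y) ^ 2 else 0) :=
    sum_nonneg fun _ _ => sum_nonneg fun _ _ => by split_ifs <;> positivity
  have h2 : 0 ≤ ∑ x ∈ Ω, ∑ y ∈ B, (if G.Adj x y then (f x - f y) ^ 2 else 0) :=
    sum_nonneg fun _ _ => sum_nonneg fun _ _ => by split_ifs <;> positivity
  constructor <;> linarith

theorem small_case {D : ℕ} {nb : V → Finset V} (hnb : ∀ x y, y ∈ nb x ↔ G.Adj x y)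
    (hD : ∀ x, (nb x).card ≤ D) {Ω B : Finset V}
    (hB : ∀ v : V, v ∈ B ↔ v ∉ Ω ∧ ∃ u ∈ Ω, G.Adj u v) (h2 : 2 ≤ B.card) :
    ∃ f : V → ℝ, ∑ x ∈ B, f x = 0 ∧ 0 < ∑ x ∈ B, f x ^ 2 ∧
      Eg G Ω B f ≤ D * ∑ x ∈ B, f x ^ 2 := by
  obtain ⟨b, hb, b', hb', hne⟩ := one_lt_card.mp h2
  let f : V → ℝ := fun x => (if x = b then 1 else 0) - (if x = b' then 1 else 0)
  have hf0 : ∀ x ∈ Ω, f x = 0 := by
    intro x hx
    have h3 : x ≠ b := fun e => ((hB b).mp hb).1 (e ▸ hx)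
    have h4 : x ≠ b' := fun e => ((hB b').mp hb').1 (e ▸ hx)
    simp [f, h3, h4]
  refine ⟨f, ?_, ?_, ?_⟩
  · simp [f, sum_sub_distrib, hb, hb']
  · refine lt_of_lt_of_le ?_ (single_le_sum (f := fun x => f x ^ 2) (fun _ _ => sq_nonneg _) hb)
    simp [f, hne]
  · have h3 : ∑ x ∈ Ω, ∑ y ∈ Ω, (if G.Adj x y then (f x - f y) ^ 2 else 0) = 0 :=
      sum_eq_zero fun x hx => sum_eq_zero fun y hy => by simp [hf0 x hx, hf0 y hy]
    rw [Eg, h3, zero_div, zero_add, sum_comm, mul_sum]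
    refine sum_le_sum fun y _ => ?_
    rw [← sum_filter, sum_congr rfl (g := fun _ => f y ^ 2) (fun x hx => by
      rw [hf0 x (mem_filter.mp hx).1]; ring), sum_const, nsmul_eq_mul]
    refine mul_le_mul_of_nonneg_right ?_ (sq_nonneg _)
    have : (Ω.filter fun x => G.Adj x y).card ≤ D :=
      (card_le_card fun x hx => (hnb y x).mpr (mem_filter.mp hx).2.symm).trans (hD y)
    exact_mod_cast this

end One

end Pool.Agent.H360Z.Stek
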