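import Pool.Agent.H360Z.Stek.Basic

set_option autoImplicit false

/-! Rough isometry invariance of discrete Steklov bounds. -/

namespace Pool.Agent.H360Z.Stek

open Finset
open Classical

variable {V₁ V₂ : Type} {G₁ : SimpleGraph V₁} {G₂ : SimpleGraph V₂}

theorem transfer [Nontrivial V₁] (h₁ : G₁.Connected) (h₂ : G₂.Connected) {D₁ D₂ : ℕ}
    {nb₁ : V₁ → Finset V₁} (hn₁ : ∀ x y, y ∈ nb₁ x ↔ G₁.Adj x y) (hD₁ : ∀ x, (nb₁ x).card ≤ D₁)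
    {nb₂ : V₂ → Finset V₂} (hn₂ : ∀ x y, y ∈ nb₂ x ↔ G₂.Adj x y) (hD₂ : ∀ x, (nb₂ x).card ≤ D₂)
    (ψ : V₂ → V₁) (c : ℕ) (s t : ℕ → ℕ)
    (hs : ∀ r y y', G₁.dist (ψ y) (ψ y') ≤ r → G₂.dist y y' ≤ s r)
    (ht : ∀ r y y', G₂.dist y y' ≤ r → G₁.dist (ψ y) (ψ y') ≤ t r)
    (hc : ∀ x, ∃ y, G₁.dist (ψ y) x ≤ c) :
    ∃ (K₁ K₂ : ℝ) (K₃ : ℕ), 0 < K₁ ∧ 0 ≤ K₂ ∧ ∀ Ω₂ B₂ : Finset V₂,
      (∀ v, v ∈ B₂ ↔ v ∉ Ω₂ ∧ ∃ u ∈ Ω₂, G₂.Adj u v) →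
      ∃ Ω₁ B₁ : Finset V₁, (∀ v, v ∈ B₁ ↔ v ∉ Ω₁ ∧ ∃ u ∈ Ω₁, G₁.Adj u v) ∧
        B₂.card ≤ B₁.card * K₃ ∧ ∀ f : V₁ → ℝ,
          Eg G₂ Ω₂ B₂ (fun y => f (ψ y)) ≤ K₂ * Eg G₁ Ω₁ B₁ f ∧
          ∀ m : ℝ, ∑ x ∈ B₁, (f x - m) ^ 2 ≤
            K₁ * (∑ b ∈ B₂, (f (ψ b) - m) ^ 2 + Eg G₁ Ω₁ B₁ f) := by
  set L := t 1 with hL
  set R := L + c + 1 with hR
  set S := s (R + 1 + c) with hS
  set T := 2 * R + 1 + t S + c + L with hT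
  set β : ℕ := (D₁ + 1) ^ T with hβ
  set κ : ℝ := (R + 1 : ℕ) + S * L with hκ
  have hfib : ∀ (r : ℕ) (z : V₁) (I : Finset V₂), (∀ y ∈ I, G₁.dist (ψ y) z ≤ r) →
      I.card ≤ (D₂ + 1) ^ s (2 * r) := by
    intro r z I hI
    rcases I.eq_empty_or_nonempty with rfl | ⟨y₀, hy₀⟩
    · simp
    refine card_le_ball h₂ hn₂ hD₂ _ y₀ I fun y hy => hs _ _ _ ?_
    have e1 := h₁.dist_triangle (u := ψ y₀) (v := z) (w := ψ y)
    have e2 := hI y hy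
    have e3 := hI y₀ hy₀
    rw [SimpleGraph.dist_comm] at e2
    omega
  refine ⟨2 * β + 8 * κ ^ 2 * β + 1, 4 * (D₂ * L ^ 2 * ((D₂ + 1) ^ s (2 * L) : ℕ)),
    (D₂ + 1) ^ s (2 * 1), by positivity, by positivity, ?_⟩
  intro Ω₂ B₂ hB₂
  choose Bl hBl1 hBl2 using fun x => exists_ball h₁ hn₁ hD₁ R x
  set N : Finset V₁ := (Ω₂ ∪ B₂).biUnion
    (fun y => (Bl (ψ y)).filter fun z => G₁.dist (ψ y) z ≤ R) with hN
  have hmemN : ∀ z, z ∈ N ↔ ∃ y ∈ Ω₂ ∪ B₂, G₁.dist (ψ y) z ≤ R := by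
    intro z
    rw [hN, mem_biUnion]
    refine exists_congr fun y => and_congr_right fun _ => ?_
    rw [mem_filter]
    exact ⟨fun h => h.2, fun h => ⟨hBl2 _ _ h, h⟩⟩
  obtain ⟨B', hB'1, hB'2, hB'3⟩ := exists_indep (G := G₁) (B₂.image ψ)
  set Ω₁ := N \ B' with hΩ₁
  set B₁ := (Ω₁.biUnion nb₁).filter (fun v => v ∉ Ω₁) with hB₁def
  have hB₁ : ∀ v, v ∈ B₁ ↔ v ∉ Ω₁ ∧ ∃ u ∈ Ω₁, G₁.Adj u v := by
    intro v
    rw [hB₁def, mem_filter, mem_biUnion, and_comm]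
    simp only [hn₁]
  have hnbB' : ∀ x ∈ B', ∀ y, G₁.Adj x y → y ∈ Ω₁ := by
    intro x hx y hxy
    obtain ⟨b, hb, rfl⟩ := mem_image.mp (hB'1 hx)
    refine mem_sdiff.mpr ⟨(hmemN y).mpr ⟨b, mem_union_right _ hb, ?_⟩, fun hy => hB'2 _ hx _ hy hxy⟩
    rw [dist_adj hxy]
    omega
  have hsub : B' ⊆ B₁ := by
    intro x hx
    obtain ⟨y, hy⟩ := h₁.preconnected.exists_adj_of_nontrivial x
    exact (hB₁ x).mpr ⟨fun h => (mem_sdiff.mp h).2 hx, y, hnbB' x hx y hy, hy.symm⟩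
  refine ⟨Ω₁, B₁, hB₁, ?_, fun f => ?_⟩
  · have e1 : B₂ ⊆ B'.biUnion (fun x => B₂.filter fun y => G₁.dist (ψ y) x ≤ 1) := by
      intro b hb
      obtain ⟨x, hx1, hx2⟩ := hB'3 _ (mem_image_of_mem ψ hb)
      exact mem_biUnion.mpr ⟨x, hx1, mem_filter.mpr ⟨hb, by rwa [SimpleGraph.dist_comm]⟩⟩
    refine (card_le_card e1).trans ((card_biUnion_le_card_mul _ _ _ fun x _ =>
      hfib 1 x _ fun y hy => (mem_filter.mp hy).2).trans ?_)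
    exact Nat.mul_le_mul_right _ (card_le_card hsub)
  have hE0 : ∑ z ∈ N, en nb₁ f z ≤ 4 * Eg G₁ Ω₁ B₁ f := by
    have e1 := (Eg_le hn₁ hB₁ f).2
    have e2 : ∑ z ∈ B', en nb₁ f z ≤ ∑ z ∈ Ω₁, en nb₁ f z := by
      have e3 : ∀ z ∈ B', en nb₁ f z =
          ∑ y ∈ Ω₁, if G₁.Adj z y then (f z - f y) ^ 2 else 0 := by
        intro z hz
        rw [← sum_filter, en]
        refine sum_congr ?_ fun _ _ => rfl
        ext y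
        rw [hn₁, mem_filter]
        exact ⟨fun h => ⟨hnbB' z hz y h, h⟩, fun h => h.2⟩
      rw [sum_congr rfl e3, sum_comm]
      refine sum_le_sum fun y _ => ?_
      rw [← sum_filter, en]
      refine (sum_le_sum_of_subset_of_nonneg (t := nb₁ y) (fun z hz =>
        (hn₁ _ _).mpr (mem_filter.mp hz).2.symm) (fun _ _ _ => sq_nonneg _)).trans (le_of_eq ?_)
      exact sum_congr rfl fun _ _ => by ring
    have e4 : ∑ z ∈ N, en nb₁ f z ≤ ∑ z ∈ Ω₁, en nb₁ f z + ∑ z ∈ B', en nb₁ f z := by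
      rw [← sum_union sdiff_disjoint]
      exact sum_le_sum_of_subset_of_nonneg (by rw [sdiff_union_self_eq_union]; exact subset_union_left)
        (fun _ _ _ => en_nonneg _ _ _)
    linarith
  have hEg0 : 0 ≤ Eg G₁ Ω₁ B₁ f := by
    have : 0 ≤ ∑ z ∈ N, en nb₁ f z := sum_nonneg fun _ _ => en_nonneg _ _ _
    linarith
  have hstep : ∀ (M : ℝ) (y₁ : V₂), y₁ ∈ Ω₂ → (∀ z ∈ N, G₁.dist (ψ y₁) z ≤ L → en nb₁ f z ≤ M) →
      ∀ y₂, G₂.Adj y₁ y₂ → |f (ψ y₁) - f (ψ y₂)| ≤ L * Real.sqrt M := by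
    intro M y₁ hy₁ hM y₂ hadj
    refine path_bound h₁ hn₁ f _ L _ (ht 1 _ _ (dist_adj hadj).le) fun z hz => hM z ?_ hz.le
    exact (hmemN z).mpr ⟨y₁, mem_union_left _ hy₁, by omega⟩
  constructor
  · refine (Eg_le hn₂ hB₂ _).1.trans ?_
    have e1 : ∀ y ∈ Ω₂, en nb₂ (fun y => f (ψ y)) y ≤
        D₂ * L ^ 2 * ∑ z ∈ N.filter (fun z => G₁.dist (ψ y) z ≤ L), en nb₁ f z := by
      intro y hy
      set M := ∑ z ∈ N.filter (fun z => G₁.dist (ψ y) z ≤ L), en nb₁ f z with hM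
      have hM0 : 0 ≤ M := sum_nonneg fun _ _ => en_nonneg _ _ _
      have e2 := hstep M y hy (fun z hz hd => single_le_sum (f := en nb₁ f)
        (fun _ _ => en_nonneg _ _ _) (mem_filter.mpr ⟨hz, hd⟩))
      have e3 : ∀ y' ∈ nb₂ y, (f (ψ y) - f (ψ y')) ^ 2 ≤ L ^ 2 * M := by
        intro y' hy'
        have e4 := e2 y' ((hn₂ _ _).mp hy')
        have e5 := pow_le_pow_left₀ (abs_nonneg _) e4 2
        rwa [sq_abs, mul_pow, Real.sq_sqrt hM0] at e5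
      refine (sum_le_card_nsmul _ _ _ e3).trans ?_
      rw [nsmul_eq_mul, mul_assoc]
      exact mul_le_mul_of_nonneg_right (by exact_mod_cast hD₂ y) (by positivity)
    refine (sum_le_sum e1).trans ?_
    rw [← mul_sum]
    have e6 := double_count Ω₂ N (fun y z => G₁.dist (ψ y) z ≤ L) (en nb₁ f) (en_nonneg _ _)
      ((D₂ + 1) ^ s (2 * L)) (fun z _ => hfib L z _ fun y hy => (mem_filter.mp hy).2)
    have e7 : (0 : ℝ) ≤ D₂ * L ^ 2 := by positivity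
    have e8 : (0 : ℝ) ≤ ((D₂ + 1) ^ s (2 * L) : ℕ) := by positivity
    calc _ ≤ D₂ * L ^ 2 * (((D₂ + 1) ^ s (2 * L) : ℕ) * ∑ z ∈ N, en nb₁ f z) :=
          mul_le_mul_of_nonneg_left e6 e7
      _ ≤ D₂ * L ^ 2 * (((D₂ + 1) ^ s (2 * L) : ℕ) * (4 * Eg G₁ Ω₁ B₁ f)) := by gcongr
      _ = _ := by ring
  · intro m
    let M : V₁ → ℝ := fun x => ∑ z ∈ N.filter (fun z => G₁.dist x z ≤ T), en nb₁ f z
    have hM0 : ∀ x, 0 ≤ M x := fun x => sum_nonneg fun _ _ => en_nonneg _ _ _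
    have hMz : ∀ x, ∀ z ∈ N, G₁.dist x z ≤ T → en nb₁ f z ≤ M x := fun x z hz hd =>
      single_le_sum (f := en nb₁ f) (fun _ _ => en_nonneg _ _ _) (mem_filter.mpr ⟨hz, hd⟩)
    have hκ0 : 0 ≤ κ := by positivity
    have key : ∀ x ∈ B₁, ∃ b ∈ B₂, G₁.dist (ψ b) x ≤ T ∧
        |f x - f (ψ b)| ≤ κ * Real.sqrt (M x) := by
      intro x hx
      obtain ⟨hx1, u, hu, hux⟩ := (hB₁ x).mp hx
      by_cases hxB : x ∈ B'
      · obtain ⟨b, hb, rfl⟩ := mem_image.mp (hB'1 hxB)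
        exact ⟨b, hb, by simp, by simp; positivity⟩
      have hxN : x ∉ N := fun h => hx1 (mem_sdiff.mpr ⟨h, hxB⟩)
      obtain ⟨y', hy'1, hy'2⟩ := (hmemN u).mp (mem_sdiff.mp hu).1
      have e1 : G₁.dist (ψ y') x ≤ R + 1 := by
        have := h₁.dist_triangle (u := ψ y') (v := u) (w := x)
        rw [dist_adj hux] at this
        omega
      obtain ⟨y₀, hy₀⟩ := hc x
      have e2 : y₀ ∉ Ω₂ := fun h => hxN ((hmemN x).mpr ⟨y₀, mem_union_left _ h, by omega⟩)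
      have e3 : G₂.dist y₀ y' ≤ S := by
        apply hs
        have := h₁.dist_triangle (u := ψ y₀) (v := x) (w := ψ y')
        rw [SimpleGraph.dist_comm (u := x)] at this
        omega
      obtain ⟨b, hb1, hb2, hb3⟩ := exit_bound h₂ hB₂ (fun y => f (ψ y))
        (l := L * Real.sqrt (M x)) (by positivity) e2 S y' hy'1 e3 (fun y₁ hy₁ hd =>
          hstep (M x) y₁ hy₁ fun z hz hd' => hMz x z hz (by
            have a1 := ht S _ _ hd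
            have a2 := h₁.dist_triangle (u := x) (v := ψ y₀) (w := z)
            have a3 := h₁.dist_triangle (u := ψ y₀) (v := ψ y₁) (w := z)
            rw [SimpleGraph.dist_comm (u := x) (v := ψ y₀)] at a2
            omega))
      refine ⟨b, hb1, ?_, ?_⟩
      · have a1 := ht S _ _ hb2
        have a2 := h₁.dist_triangle (u := ψ b) (v := ψ y₀) (w := x)
        rw [SimpleGraph.dist_comm (u := ψ b) (v := ψ y₀)] at a2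
        omega
      · have e4 := path_bound h₁ hn₁ f (M := M x) (ψ y') (R + 1) x e1 (fun z hz => hMz x z
          ((hmemN z).mpr ⟨y', hy'1, by omega⟩) (by
            have a2 := h₁.dist_triangle (u := x) (v := ψ y') (w := z)
            rw [SimpleGraph.dist_comm (u := x) (v := ψ y')] at a2
            omega))
        have e5 := abs_sub_le (f x) (f (ψ y')) (f (ψ b))
        rw [abs_sub_comm] at e4
        have e6 : κ * Real.sqrt (M x) =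
            (R + 1 : ℕ) * Real.sqrt (M x) + S * (L * Real.sqrt (M x)) := by rw [hκ]; ring
        linarith
    have e1 : ∀ x ∈ B₁, (f x - m) ^ 2 ≤
        2 * ∑ b ∈ B₂.filter (fun b => G₁.dist (ψ b) x ≤ T), (f (ψ b) - m) ^ 2 +
          2 * κ ^ 2 * M x := by
      intro x hx
      obtain ⟨b, hb1, hb2, hb3⟩ := key x hx
      have e2 := pow_le_pow_left₀ (abs_nonneg _) hb3 2
      rw [sq_abs, mul_pow, Real.sq_sqrt (hM0 x)] at e2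
      have e3 : (f (ψ b) - m) ^ 2 ≤
          ∑ b ∈ B₂.filter (fun b => G₁.dist (ψ b) x ≤ T), (f (ψ b) - m) ^ 2 :=
        single_le_sum (f := fun b => (f (ψ b) - m) ^ 2) (fun _ _ => sq_nonneg _)
          (mem_filter.mpr ⟨hb1, hb2⟩)
      nlinarith [sq_nonneg (f x - f (ψ b) - (f (ψ b) - m))]
    refine (sum_le_sum e1).trans ?_
    rw [sum_add_distrib, ← mul_sum, ← mul_sum]
    have e4 := double_count B₁ B₂ (fun x b => G₁.dist (ψ b) x ≤ T) (fun b => (f (ψ b) - m) ^ 2)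
      (fun _ => sq_nonneg _) β (fun b _ => card_le_ball h₁ hn₁ hD₁ T (ψ b) _
        fun z hz => (mem_filter.mp hz).2)
    have e5 := double_count B₁ N (fun x z => G₁.dist x z ≤ T) (en nb₁ f) (en_nonneg _ _) β
      (fun z _ => card_le_ball h₁ hn₁ hD₁ T z _ fun x hx => by
        rw [SimpleGraph.dist_comm]; exact (mem_filter.mp hx).2)
    have e6 : 0 ≤ ∑ b ∈ B₂, (f (ψ b) - m) ^ 2 := sum_nonneg fun _ _ => sq_nonneg _
    have e7 : ∑ x ∈ B₁, M x ≤ β * (4 * Eg G₁ Ω₁ B₁ f) :=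
      e5.trans (mul_le_mul_of_nonneg_left hE0 (by positivity))
    have e8 : 2 * κ ^ 2 * ∑ x ∈ B₁, M x ≤ 2 * κ ^ 2 * (β * (4 * Eg G₁ Ω₁ B₁ f)) :=
      mul_le_mul_of_nonneg_left e7 (by positivity)
    have e9 : (0 : ℝ) ≤ β := by positivity
    have e10 : 0 ≤ κ ^ 2 * β * ∑ b ∈ B₂, (f (ψ b) - m) ^ 2 := by positivity
    have e11 : 0 ≤ β * Eg G₁ Ω₁ B₁ f := by positivity
    have e12 : (2 * β + 8 * κ ^ 2 * β + 1) *
        (∑ b ∈ B₂, (f (ψ b) - m) ^ 2 + Eg G₁ Ω₁ B₁ f) =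
        2 * (β * ∑ b ∈ B₂, (f (ψ b) - m) ^ 2) + 2 * κ ^ 2 * (β * (4 * Eg G₁ Ω₁ B₁ f)) +
          (8 * (κ ^ 2 * β * ∑ b ∈ B₂, (f (ψ b) - m) ^ 2) + 2 * (β * Eg G₁ Ω₁ B₁ f) +
            ∑ b ∈ B₂, (f (ψ b) - m) ^ 2 + Eg G₁ Ω₁ B₁ f) := by ring
    rw [e12]
    linarith

theorem exists_inverse (h₂ : G₂.Connected) (φ : V₁ → V₂) {a b c : ℝ} (ha : 1 ≤ a)
    (hφ : ∀ x y : V₁, (G₁.dist x y : ℝ) / a - b ≤ (G₂.dist (φ x) (φ y) : ℝ) ∧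
      (G₂.dist (φ x) (φ y) : ℝ) ≤ a * (G₁.dist x y : ℝ) + b)
    (hc : ∀ z : V₂, ∃ x : V₁, (G₂.dist (φ x) z : ℝ) ≤ c) :
    ∃ (ψ : V₂ → V₁) (c' : ℕ) (s t : ℕ → ℕ),
      (∀ r y y', G₁.dist (ψ y) (ψ y') ≤ r → G₂.dist y y' ≤ s r) ∧
      (∀ r y y', G₂.dist y y' ≤ r → G₁.dist (ψ y) (ψ y') ≤ t r) ∧
      (∀ x, ∃ y, G₁.dist (ψ y) x ≤ c') := by
  choose ψ hψ using hc
  have ha0 : 0 < a := by linarith
  have tri : ∀ u v w : V₂, (G₂.dist u w : ℝ) ≤ G₂.dist u v + G₂.dist v w := fun u v w => by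
    exact_mod_cast h₂.dist_triangle
  refine ⟨ψ, ⌈a * (c + b)⌉₊, fun r => ⌈2 * c + a * r + b⌉₊, fun r => ⌈a * (2 * c + r + b)⌉₊,
    ?_, ?_, ?_⟩
  · intro r y y' h
    have h' : (G₁.dist (ψ y) (ψ y') : ℝ) ≤ r := by exact_mod_cast h
    have e1 := tri y (φ (ψ y)) y'
    have e2 := tri (φ (ψ y)) (φ (ψ y')) y'
    have e3 := hψ y
    have e4 := hψ y'
    have e5 := (hφ (ψ y) (ψ y')).2
    rw [SimpleGraph.dist_comm] at e3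
    have e6 : (G₂.dist y y' : ℝ) ≤ 2 * c + a * r + b := by nlinarith
    exact_mod_cast e6.trans (Nat.le_ceil _)
  · intro r y y' h
    have h' : (G₂.dist y y' : ℝ) ≤ r := by exact_mod_cast h
    have e1 := tri (φ (ψ y)) y (φ (ψ y'))
    have e2 := tri y y' (φ (ψ y'))
    have e3 := hψ y
    have e4 := hψ y'
    have e5 := (hφ (ψ y) (ψ y')).1
    rw [SimpleGraph.dist_comm] at e4
    have e6 : (G₁.dist (ψ y) (ψ y') : ℝ) / a ≤ 2 * c + r + b := by linarith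
    rw [div_le_iff₀ ha0, mul_comm] at e6
    exact_mod_cast e6.trans (Nat.le_ceil _)
  · intro x
    refine ⟨φ x, ?_⟩
    have e3 := hψ (φ x)
    have e5 := (hφ (ψ (φ x)) x).1
    have e6 : (G₁.dist (ψ (φ x)) x : ℝ) / a ≤ c + b := by linarith
    rw [div_le_iff₀ ha0, mul_comm] at e6
    exact_mod_cast e6.trans (Nat.le_ceil _)

theorem Eg_sub {V : Type} (G : SimpleGraph V) (Ω B : Finset V) (f : V → ℝ) (m : ℝ) :
    Eg G Ω B (fun x => f x - m) = Eg G Ω B f := by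
  simp only [Eg, sub_sub_sub_cancel_right]

theorem main {α : ℝ} (hα : 0 < α) [Infinite V₁] (h₁ : G₁.Connected) (h₂ : G₂.Connected)
    {D₁ D₂ : ℕ} (hD₁ : ∀ v : V₁, (G₁.neighborSet v).encard ≤ (D₁ : ℕ∞))
    (hD₂ : ∀ v : V₂, (G₂.neighborSet v).encard ≤ (D₂ : ℕ∞)) (φ : V₁ → V₂) {a b c : ℝ}
    (ha : 1 ≤ a)
    (hφ : ∀ x y : V₁, (G₁.dist x y : ℝ) / a - b ≤ (G₂.dist (φ x) (φ y) : ℝ) ∧
      (G₂.dist (φ x) (φ y) : ℝ) ≤ a * (G₁.dist x y : ℝ) + b)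
    (hc : ∀ z : V₂, ∃ x : V₁, (G₂.dist (φ x) z : ℝ) ≤ c) {C : ℝ}
    (hC : ∀ Ω B : Finset V₁, (∀ v : V₁, v ∈ B ↔ v ∉ Ω ∧ ∃ u ∈ Ω, G₁.Adj u v) →
      2 ≤ B.card → ∃ f : V₁ → ℝ, ∑ x ∈ B, f x = 0 ∧ 0 < ∑ x ∈ B, f x ^ 2 ∧
        Eg G₁ Ω B f ≤ C / (B.card : ℝ) ^ α * ∑ x ∈ B, f x ^ 2) :
    ∃ C : ℝ, ∀ Ω B : Finset V₂, (∀ v : V₂, v ∈ B ↔ v ∉ Ω ∧ ∃ u ∈ Ω, G₂.Adj u v) →
      2 ≤ B.card → ∃ f : V₂ → ℝ, ∑ x ∈ B, f x = 0 ∧ 0 < ∑ x ∈ B, f x ^ 2 ∧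
        Eg G₂ Ω B f ≤ C / (B.card : ℝ) ^ α * ∑ x ∈ B, f x ^ 2 := by
  obtain ⟨nb₁, hn₁, hd₁⟩ := exists_nb hD₁
  obtain ⟨nb₂, hn₂, hd₂⟩ := exists_nb hD₂
  obtain ⟨ψ, c', s, t, hs, ht, hc'⟩ := exists_inverse h₂ φ ha hφ hc
  obtain ⟨K₁, K₂, K₃, hK₁, hK₂, htr⟩ := transfer h₁ h₂ hn₁ hd₁ hn₂ hd₂ ψ c' s t hs ht hc'
  set C' := max C 0 with hC'
  have hC'0 : 0 ≤ C' := le_max_right _ _
  obtain ⟨n₁, hn₁'⟩ : ∃ n₁ : ℕ, ∀ n : ℕ, n₁ ≤ n → 2 * K₁ * C' ≤ (n : ℝ) ^ α :=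
    Filter.eventually_atTop.mp (((tendsto_rpow_atTop hα).comp
      tendsto_natCast_atTop_atTop).eventually_ge_atTop _)
  set n₀ : ℕ := (n₁ + 2) * K₃ with hn₀
  refine ⟨D₂ * (n₀ : ℝ) ^ α + 2 * K₁ * K₂ * C' * (K₃ : ℝ) ^ α, fun Ω₂ B₂ hB₂ h2 => ?_⟩
  have hn0 : (0 : ℝ) < B₂.card := by exact_mod_cast (by omega : 0 < B₂.card)
  have hp : (0 : ℝ) < (B₂.card : ℝ) ^ α := Real.rpow_pos_of_pos hn0 _
  have hq1 : (0 : ℝ) ≤ D₂ * (n₀ : ℝ) ^ α := by positivity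
  have hq2 : (0 : ℝ) ≤ 2 * K₁ * K₂ * C' * (K₃ : ℝ) ^ α := by positivity
  rcases le_or_gt B₂.card n₀ with hle | hlt
  · obtain ⟨f, hf1, hf2, hf3⟩ := small_case hn₂ hd₂ hB₂ h2
    refine ⟨f, hf1, hf2, hf3.trans (mul_le_mul_of_nonneg_right ?_ hf2.le)⟩
    rw [le_div_iff₀ hp]
    have : (B₂.card : ℝ) ^ α ≤ (n₀ : ℝ) ^ α :=
      Real.rpow_le_rpow hn0.le (by exact_mod_cast hle) hα.le
    have : (D₂ : ℝ) * (B₂.card : ℝ) ^ α ≤ D₂ * (n₀ : ℝ) ^ α := by gcongr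
    linarith
  obtain ⟨Ω₁, B₁, hB₁, hcard, hf⟩ := htr Ω₂ B₂ hB₂
  have hb : n₁ + 2 < B₁.card := by
    by_contra hcon
    have := Nat.mul_le_mul_right K₃ (not_lt.mp hcon)
    omega
  obtain ⟨f, hf1, hf2, hf3⟩ := hC Ω₁ B₁ hB₁ (by omega)
  obtain ⟨hE, hV⟩ := hf f
  have hm0 : (0 : ℝ) < B₁.card := by exact_mod_cast (by omega : 0 < B₁.card)
  have hp1 : (0 : ℝ) < (B₁.card : ℝ) ^ α := Real.rpow_pos_of_pos hm0 _
  set m : ℝ := (∑ y ∈ B₂, f (ψ y)) / B₂.card with hm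
  set S₁ := ∑ x ∈ B₁, f x ^ 2 with hS₁
  set S₂ := ∑ y ∈ B₂, (f (ψ y) - m) ^ 2 with hS₂
  set E₁ := Eg G₁ Ω₁ B₁ f with hE₁
  have e1 : S₁ ≤ ∑ x ∈ B₁, (f x - m) ^ 2 := by
    have : ∑ x ∈ B₁, (f x - m) ^ 2 = S₁ - 2 * m * ∑ x ∈ B₁, f x + ∑ x ∈ B₁, m ^ 2 := by
      rw [hS₁, mul_sum, ← sum_sub_distrib, ← sum_add_distrib]
      exact sum_congr rfl fun _ _ => by ring
    rw [this, hf1]
    have : 0 ≤ ∑ x ∈ B₁, m ^ 2 := sum_nonneg fun _ _ => sq_nonneg _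
    linarith
  have e2 : E₁ ≤ C' / (B₁.card : ℝ) ^ α * S₁ :=
    hf3.trans (mul_le_mul_of_nonneg_right
      (div_le_div_of_nonneg_right (le_max_left _ _) hp1.le) hf2.le)
  have e3 : K₁ * (C' / (B₁.card : ℝ) ^ α) ≤ 1 / 2 := by
    rw [← mul_div_assoc, div_le_iff₀ hp1]
    have := hn₁' B₁.card (by omega)
    linarith
  have e4 : K₁ * E₁ ≤ S₁ / 2 := by
    have a1 := mul_le_mul_of_nonneg_left e2 hK₁.le
    have a2 := mul_le_mul_of_nonneg_right e3 hf2.le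
    nlinarith
  have e5 : S₁ ≤ 2 * K₁ * S₂ := by
    have := e1.trans (hV m)
    nlinarith
  have e6 : 0 < S₂ := by
    by_contra hcon
    have : 2 * K₁ * S₂ ≤ 0 := mul_nonpos_of_nonneg_of_nonpos (by positivity) (not_lt.mp hcon)
    linarith
  refine ⟨fun y => f (ψ y) - m, ?_, e6, ?_⟩
  · rw [sum_sub_distrib, sum_const, nsmul_eq_mul, hm]
    field_simp
    ring
  · rw [Eg_sub]
    have e7 : (B₂.card : ℝ) ^ α ≤ (B₁.card : ℝ) ^ α * (K₃ : ℝ) ^ α := by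
      rw [← Real.mul_rpow hm0.le (by positivity)]
      exact Real.rpow_le_rpow hn0.le (by exact_mod_cast hcard) hα.le
    have e8 : C' / (B₁.card : ℝ) ^ α ≤ C' * (K₃ : ℝ) ^ α / (B₂.card : ℝ) ^ α := by
      rw [div_le_div_iff₀ hp1 hp]
      have := mul_le_mul_of_nonneg_left e7 hC'0
      linarith
    calc _ ≤ K₂ * E₁ := hE
      _ ≤ K₂ * (C' / (B₁.card : ℝ) ^ α * S₁) := by gcongr
      _ ≤ K₂ * (C' * (K₃ : ℝ) ^ α / (B₂.card : ℝ) ^ α * (2 * K₁ * S₂)) := by gcongr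
      _ = 2 * K₁ * K₂ * C' * (K₃ : ℝ) ^ α / (B₂.card : ℝ) ^ α * S₂ := by ring
      _ ≤ _ := by
        gcongr
        linarith

end Pool.Agent.H360Z.Stek
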